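import Mathlib
import Pool.Agent.U309.ZF.Stm

/-!
Project ZF, package ZETA2: the bound for `ζ(s)` from the one for Dedekind zeta functions.
-/

set_option autoImplicit false

open NumberField IsDedekindDomain

namespace Pool.Agent.U111.ZF

open Pool.Agent.U309.ZF

theorem absNorm_span_nat (p : ℕ) : Ideal.absNorm (Ideal.span {(p : 𝓞 ℚ)}) = p := by
  have h := Ideal.absNorm_span_natCast (S := 𝓞 ℚ) p
  rw [RingOfIntegers.rank, Module.finrank_self, pow_one] at h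
  exact h

theorem eq_span {v : HeightOneSpectrum (𝓞 ℚ)} {p : ℕ} (hp : p.Prime)
    (hv : Ideal.absNorm v.asIdeal = p) : v.asIdeal = Ideal.span {(p : 𝓞 ℚ)} := by
  have h1 : (p : 𝓞 ℚ) ∈ v.asIdeal := by
    rw [← hv]; exact Ideal.absNorm_mem _
  have h2 : Ideal.span {(p : 𝓞 ℚ)} ≤ v.asIdeal := (Ideal.span_singleton_le_iff_mem _).2 h1
  obtain ⟨J, hJ⟩ := Ideal.dvd_iff_le.2 h2
  have h3 := congrArg Ideal.absNorm hJ
  rw [absNorm_span_nat, map_mul, hv] at h3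
  have h4 : Ideal.absNorm J = 1 := by
    have := hp.pos
    nlinarith
  have h5 : J = ⊤ := Ideal.absNorm_eq_one_iff.1 h4
  rw [hJ, h5, Ideal.mul_top]

theorem pi1_rat (p : ℕ) (hp : p.Prime) : pi1 ℚ p = 1 := by
  unfold pi1
  rw [Nat.card_eq_one_iff_unique]
  refine ⟨⟨fun x y => ?_⟩, ?_⟩
  · apply Subtype.ext
    apply HeightOneSpectrum.ext
    rw [eq_span hp x.2, eq_span hp y.2]
  · have hprime : (Ideal.span {(p : 𝓞 ℚ)}).IsPrime := by
      apply Ideal.isPrime_of_irreducible_absNorm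
      rw [absNorm_span_nat]
      exact hp
    refine ⟨⟨⟨Ideal.span {(p : 𝓞 ℚ)}, hprime, ?_⟩, absNorm_span_nat p⟩⟩
    intro hbot
    have h := absNorm_span_nat p
    rw [hbot, Ideal.absNorm_bot] at h
    exact hp.ne_zero h.symm

theorem ld_rat : ld ℚ = 0 := by
  unfold ld
  rw [Rat.numberField_discr]
  simp

theorem t_ZETA2 : S_ZETA2 := by
  intro hDED
  obtain ⟨C, hC, h⟩ := hDED 1
  refine ⟨C, hC, fun δ μ hδ hδ1 => ?_⟩
  have h1 := h ℚ (Module.finrank_self ℚ) δ μ hδ hδ1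
  rw [ld_rat, zero_add] at h1
  have h2 : W (fun p => (pi1 ℚ p : ℝ)) δ μ = W (fun _ => 1) δ μ := by
    unfold W
    apply tsum_congr
    intro p
    have h3 : ((pi1 ℚ (p : ℕ) : ℕ) : ℝ) = 1 := by
      rw [pi1_rat (p : ℕ) p.2, Nat.cast_one]
    show ((pi1 ℚ (p : ℕ) : ℕ) : ℝ) * _ * _ = 1 * _ * _
    rw [h3]
  rw [← h2]
  exact h1

end Pool.Agent.U111.ZF
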